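import Pool.Agent.Y945.SP.Final

/-!
MP_5c78ab_al, Q1: disproof.

The cluster algebra of geometric type (coefficient variables not inverted) with nine mutable
variables `x_(l,i)`, `l, i` in `Fin 3`, and two coefficient variables, whose exchange matrix is
block diagonal with three blocks `[[0,-1,2],[1,0,-2],[-3,3,0]]` and whose two coefficient rows are
`(3,-1,-4)` and `(1,-3,4)`, each repeated for every block, has no `ℤ`-basis that contains all
cluster monomials and has nonnegative structure constants.

All notions (`Seed`, `Seed.mutate`, `clusterAlgebra`, `clusterMonomials`, `IsZBasis`,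
`NonnegStructure`) are defined in `Pool/Agent/Y945/SP/Defs.lean`.

Outline. In each block, with mutable variables `a, b, t` and the common coefficients `c₀, c₁`, the
elements `d, p, q, P, Q, R` given by `a q = b c₀³ c₁ + t³`, `b p = t³ + a c₀ c₁³`,
`t R = c₁⁴ a² + c₀⁴ b²`, `a d = p + c₀³ c₁`, `t P = p² + c₀⁶ c₁²`, `t Q = q² + c₀² c₁⁶` are cluster
variables, and `c₀ c₁ u = c₀² (w₁ - s₁) + c₁² (w₂ - s₂)` for `u = d R`, `w₁ = a Q`, `w₂ = b P`,
`s₁ = t² q`, `s₂ = t² p`. Hence the 3 x 3 determinant with rows `(w₁ - s₁, w₂ - s₂, u)`, one for
every block, vanishes. This is an equation between two sums of twelve products of cluster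
variables. If a basis as above exists, some basis element `b` occurs in the expansion of the
summand `w₁ w₂' u''` of the first sum and has a nonzero coefficient at the Laurent monomial
`(b²/(at)) (a²/(bt))' (b²/(at))''` (with the coefficient variables set to `1`). Since the basis
contains the monomials of the initial extended cluster, `b` is a Laurent polynomial whose
coefficients are bounded by those of `w₁ w₂' u''`; in particular it is homogeneous of the same
degree for a grading by `ℤ⁵`. A linear combination of six Laurent coefficients vanishes on all
elements of the algebra of this degree (all cluster variables outside the 27 above have too large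
degree, a statement about all seeds). It follows that `b` has the same nonzero coefficient at
`(b²/(at)) (a²/(bt))' (a²/(bt))''`. But `b` must occur in the expansion of one of the twelve
products of the second sum, and none of them contains both Laurent monomials.
-/

namespace Pool.Agent.Results.MP_5c78ab_al.StrongPositivityFails

open Pool.Agent.Y945.SP

/-- There is a cluster algebra of geometric type (rank nine, two coefficient variables) without
a `ℤ`-basis that contains all cluster monomials and has nonnegative structure constants. -/
theorem result :
    ∃ B : Matrix ((Fin 3 × Fin 3) ⊕ Fin 2) (Fin 3 × Fin 3) ℤ,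
      (∀ i j : Fin 3 × Fin 3, B (Sum.inl i) j = if i.1 = j.1 then
        ![![0, -1, 2], ![1, 0, -2], ![-3, 3, 0]] i.2 j.2 else 0) ∧
      (∀ (a : Fin 2) (j : Fin 3 × Fin 3), B (Sum.inr a) j =
        ![![3, -1, -4], ![1, -3, 4]] a j.2) ∧
      SkewSymmetrizable B ∧
      ¬ ∃ C : Set (Amb (Fin 3 × Fin 3) (Fin 2)),
        IsZBasis B C ∧ clusterMonomials B ⊆ C ∧ NonnegStructure C :=
  ⟨Bm, fun _ _ => rfl, fun _ _ => rfl, Bm_skew, fun ⟨_, hC, hM, hP⟩ => no_basis hC hM hP⟩

end Pool.Agent.Results.MP_5c78ab_al.StrongPositivityFails
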